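import Pool.Agent.TH682.EN.Chk

/-!
# The computation of the table, and the bounds
-/

set_option autoImplicit false

namespace Pool.Agent.TH682.EN

open Pool.Agent.NPC Pool.Agent.H579R2.Spt Pool.Agent.TH682.GD Pool.Agent.TH682.HS
open Pool.Agent.TH682.VC (PB two_pow_size_le)

/-- The number of points. -/
def pts (f : List Bool → List ℕ) (n a : ℕ) (y : List Bool) : ℕ :=
  (fa f a (List.replicate (min n y.length) false)).length

/-- The length of a longest program. -/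
def kk (f : List Bool → List ℕ) (g1 : Q1 × List Bool → Bool) (n a : ℕ) (y : List Bool) : ℕ :=
  mx (fun k => g1 ((n, (a, k)), y)) (pts f n a y * pts f n a y)

/-- The table. -/
def Ft (f : List Bool → List ℕ) (g1 : Q1 × List Bool → Bool) (g2 : Q2 × List Bool → Bool)
    (y : List Bool) (n a : ℕ) : List (List ℕ) :=
  asm (pts f n a y) (fun r => g2 (((n, (a, kk f g1 n a y)), r), y))

section poly

variable {α : Type} [TEnc α]

theorem mx_poly {p : α → ℕ → Bool} (hp : Poly (fun q : α × ℕ => p q.1 q.2)) {B : α → ℕ}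
    (hB : UPoly B) : Poly (fun r => mx (p r) (B r)) :=
  NPC.Poly.optGetD (NPC.Poly.head? (NPC.Poly.filter (l := fun r => (List.range (B r + 1)).reverse)
    (p := p) (NPC.Poly.reverse (hB.add (UPoly.const 1)).range) hp)) (NPC.Poly.const 0)

theorem rw'_poly {g : α → (ℕ × ℕ) × (ℕ × ℕ) → Bool}
    (hg : Poly (fun q : α × ((ℕ × ℕ) × (ℕ × ℕ)) => g q.1 q.2)) {N : α → ℕ} (hN : UPoly N)
    {r : α → ℕ × ℕ} (hr : Poly r) : Poly (fun a => rw' (N a) (g a) (r a)) := by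
  refine NPC.Poly.map (l := fun a => List.range (N a))
    (F := fun a j => (((List.range (N a)).filter (fun u => g a (r a, (j, u)))).head?).getD 0)
    hN.range (NPC.Poly.optGetD (NPC.Poly.head? (NPC.Poly.filter
      (l := fun q : α × ℕ => List.range (N q.1)) (p := fun q u => g q.1 (r q.1, (q.2, u)))
      (hN.comp (NPC.Poly.fst NPC.Poly.id)).range ?_)) (NPC.Poly.const 0))
  have f1 : Poly (fun q : (α × ℕ) × ℕ => q.1) := NPC.Poly.fst NPC.Poly.id
  have f2 : Poly (fun q : (α × ℕ) × ℕ => q.2) := NPC.Poly.snd NPC.Poly.id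
  exact hg.comp (NPC.Poly.pair (NPC.Poly.fst f1) (NPC.Poly.pair (hr.comp (NPC.Poly.fst f1))
    (NPC.Poly.pair (NPC.Poly.snd f1) f2)))

theorem asm_poly {g : α → (ℕ × ℕ) × (ℕ × ℕ) → Bool}
    (hg : Poly (fun q : α × ((ℕ × ℕ) × (ℕ × ℕ)) => g q.1 q.2)) {N : α → ℕ} (hN : UPoly N) :
    Poly (fun a => asm (N a) (g a)) := by
  have f1 : Poly (fun q : α × (ℕ × ℕ) => q.1) := NPC.Poly.fst NPC.Poly.id
  have f2 : Poly (fun q : α × (ℕ × ℕ) => q.2) := NPC.Poly.snd NPC.Poly.id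
  have h1 : Poly (fun a => (List.range (N a) ×ˢ List.range (N a) : List (ℕ × ℕ))) := by
    refine NPC.Poly.flatMap (l := fun a => List.range (N a))
      (F := fun a i => (List.range (N a)).map (Prod.mk i)) hN.range ?_
    exact NPC.Poly.map (l := fun q : α × ℕ => List.range (N q.1)) (F := fun q j => (q.2, j))
      (hN.comp (NPC.Poly.fst NPC.Poly.id)).range (NPC.Poly.pair
        (NPC.Poly.snd (NPC.Poly.fst NPC.Poly.id)) (NPC.Poly.snd NPC.Poly.id))
  have h2 : Poly (fun a => (List.range (N a) ×ˢ List.range (N a) : List (ℕ × ℕ)).filter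
      (fun r => g a (r, r))) :=
    NPC.Poly.filter (l := fun a => (List.range (N a) ×ˢ List.range (N a) : List (ℕ × ℕ)))
      (p := fun a r => g a (r, r)) h1 (hg.comp (NPC.Poly.pair f1 (NPC.Poly.pair f2 f2)))
  refine NPC.Poly.map (l := fun a => (List.range (N a) ×ˢ List.range (N a) :
    List (ℕ × ℕ)).filter (fun r => g a (r, r))) (F := fun a r => rw' (N a) (g a) r) h2 ?_
  refine rw'_poly (g := fun q : α × (ℕ × ℕ) => g q.1) (N := fun q : α × (ℕ × ℕ) => N q.1) ?_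
    (hN.comp f1) f2
  exact hg.comp (NPC.Poly.pair (NPC.Poly.fst (NPC.Poly.fst NPC.Poly.id))
    (NPC.Poly.snd NPC.Poly.id))

variable {f : List Bool → List ℕ} {g1 : Q1 × List Bool → Bool} {g2 : Q2 × List Bool → Bool}
  {n a : α → ℕ} {y : α → List Bool}

theorem pts_poly (hf : Poly f) (hn : Poly n) (ha : Poly a) (hy : Poly y) :
    UPoly (fun r => pts f (n r) (a r) (y r)) := by
  refine UPoly.length (hf.comp (bits_poly.comp (NPC.Poly.pair (replicate_poly ?_ false) ha)))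
  exact UPoly.of_le (NPC.Poly.min hn (UPoly.length hy).toPoly) (UPoly.length hy)
    fun r => min_le_right _ _

theorem kk_poly (hf : Poly f) (h1 : Poly g1) (hn : Poly n) (ha : Poly a) (hy : Poly y) :
    Poly (fun r => kk f g1 (n r) (a r) (y r)) := by
  have f1 : Poly (fun q : α × ℕ => q.1) := NPC.Poly.fst NPC.Poly.id
  have f2 : Poly (fun q : α × ℕ => q.2) := NPC.Poly.snd NPC.Poly.id
  exact mx_poly (p := fun r k => g1 ((n r, (a r, k)), y r)) (h1.comp (NPC.Poly.pair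
    (NPC.Poly.pair (hn.comp f1) (NPC.Poly.pair (ha.comp f1) f2)) (hy.comp f1)))
      ((pts_poly hf hn ha hy).mul (pts_poly hf hn ha hy))

theorem Ft_poly (hf : Poly f) (h1 : Poly g1) (h2 : Poly g2) (hn : Poly n) (ha : Poly a)
    (hy : Poly y) : Poly (fun r => Ft f g1 g2 (y r) (n r) (a r)) := by
  have f1 : Poly (fun q : α × ((ℕ × ℕ) × (ℕ × ℕ)) => q.1) := NPC.Poly.fst NPC.Poly.id
  have f2 : Poly (fun q : α × ((ℕ × ℕ) × (ℕ × ℕ)) => q.2) := NPC.Poly.snd NPC.Poly.id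
  exact asm_poly (g := fun r q => g2 (((n r, (a r, kk f g1 (n r) (a r) (y r))), q), y r))
    (h2.comp (NPC.Poly.pair (NPC.Poly.pair (NPC.Poly.pair (hn.comp f1) (NPC.Poly.pair
      (ha.comp f1) ((kk_poly hf h1 hn ha hy).comp f1))) f2) (hy.comp f1)))
      (pts_poly hf hn ha hy)

end poly

section sem

variable {f : List Bool → List ℕ} {V : List Bool → List Bool} {p : Polynomial ℕ}
  {A : Set (List Bool)} {n a N : ℕ} {s : List Bool → Equiv.Perm (Fin N)}
  {g1 : Q1 × List Bool → Bool} {g2 : Q2 × List Bool → Bool}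

/-- **The table is complete.** -/
theorem Ft_spec (hVA : ∀ x, x ∈ A ↔ ∃ w : List Bool, w.length ≤ p.eval x.length ∧
    V (pairBits x w) = [true]) (hs : ∀ x ∈ mem A n, fa f a x = vals (s x)) {y : List Bool}
    (hN : pts f n a y = N)
    (h1 : ∀ k ≤ N * N, ∃ B, zz N n (p.eval n) ≤ B ∧ (g1 ((n, (a, k)), y) = true ↔
      ∃ w : List Bool, w.length ≤ B ∧ c1 f V p (n, (a, k)) ((unbits Crp w).getD []) = true))
    (h2 : ∀ K ≤ N * N, ∀ i < N, ∀ v < N, ∀ j < N, ∀ u < N, ∃ B, zz N n (p.eval n) ≤ B ∧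
      (g2 (((n, (a, K)), ((i, v), (j, u))), y) = true ↔ ∃ w : List Bool, w.length ≤ B ∧
        c2 f V p ((n, (a, K)), ((i, v), (j, u)))
          ((unbits (Crp × List ℕ) w).getD ([], [])) = true)) :
    Tab N (Ft f g1 g2 y n a) ∧
      (∀ v ∈ Ft f g1 g2 y n a, InH (Subgroup.closure (s '' mem A n)) v) ∧
        ∀ σ ∈ Subgroup.closure (s '' mem A n), key (sft (Ft f g1 g2 y n a) (vals σ)) = none := by
  classical
  set P : ℕ → Prop := fun k => ∃ ops : Prg, Vld (fa f a) ops ∧ (∀ o ∈ ops, o.2 ∈ mem A n) ∧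
    ops.length = k with hP
  have hP0 : P 0 := ⟨[], ⟨by simp, rfl⟩, by simp, rfl⟩
  have hPN : ∀ k, P k → k ≤ N * N := by
    rintro k ⟨ops, k1, k2, rfl⟩
    have := vld_length_le hs k1 k2
    rw [sq] at this
    exact this
  have hK : P (Nat.findGreatest P (N * N)) := Nat.findGreatest_spec (Nat.zero_le _) hP0
  have hmax : ∀ k, P k → k ≤ Nat.findGreatest P (N * N) := fun k hk =>
    Nat.le_findGreatest (hPN k hk) hk
  have hKN := hPN _ hK
  have h3 : kk f g1 n a y = Nat.findGreatest P (N * N) := by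
    unfold kk
    rw [hN]
    have h4 : ∀ k ≤ N * N, (g1 ((n, (a, k)), y) = true ↔ P k) := fun k hk => by
      obtain ⟨B, hB, h5⟩ := h1 k hk
      rw [h5, c1_iff hVA hs hB]
    exact mx_eq ((h4 _ hKN).2 hK) _ hKN fun k hk h5 => hmax k ((h4 k hk).1 h5)
  unfold Ft
  rw [hN, h3]
  refine asm_spec fun i hi v hv j hj u hu => ?_
  obtain ⟨B, hB, h5⟩ := h2 _ hKN i hi v hv j hj u hu
  rw [h5]
  exact c2_iff hVA hs hB hK fun ops k1 k2 => hmax _ ⟨ops, k1, k2, rfl⟩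

end sem

/-! ### Bounds -/

theorem two_pow_sz_nat {m M : ℕ} (h : m ≤ M) : 2 ^ sz m ≤ 2 * (2 * M + 1) ^ 4 := by
  have h1 := sz_nat_le m
  calc 2 ^ sz m ≤ 2 ^ (4 * m.size + 1) := Nat.pow_le_pow_right (by norm_num) h1
    _ = 2 * (2 ^ m.size) ^ 4 := by rw [pow_succ, mul_comm 4, pow_mul, mul_comm]
    _ ≤ _ := by
      refine Nat.mul_le_mul_left _ (Nat.pow_le_pow_left ((two_pow_size_le m).trans ?_) 4)
      omega

/-- The bound of the padding. -/
def ww (M : ℕ) : ℕ := 2 ^ 7 * (2 * (2 * M + 1) ^ 4) ^ 7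

theorem q2_bound {n a k i v j u M : ℕ} (h1 : n ≤ M) (h2 : a ≤ M) (h3 : k ≤ M) (h4 : i ≤ M)
    (h5 : v ≤ M) (h6 : j ≤ M) (h7 : u ≤ M) :
    2 ^ (sz (((n, (a, k)), ((i, v), (j, u))) : Q2) + 1) ≤ ww M := by
  have e : sz (((n, (a, k)), ((i, v), (j, u))) : Q2) + 1 =
      7 + sz n + sz a + sz k + sz i + sz v + sz j + sz u := by
    rw [sz_pair, sz_pair, sz_pair, sz_pair, sz_pair, sz_pair]
    omega
  rw [e, pow_add, pow_add, pow_add, pow_add, pow_add, pow_add, pow_add]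
  unfold ww
  set z := 2 * (2 * M + 1) ^ 4 with hz
  calc 2 ^ 7 * 2 ^ sz n * 2 ^ sz a * 2 ^ sz k * 2 ^ sz i * 2 ^ sz v * 2 ^ sz j * 2 ^ sz u
      ≤ 2 ^ 7 * z * z * z * z * z * z * z := by
        gcongr <;> exact two_pow_sz_nat (by assumption)
    _ = _ := by ring

theorem q1_bound {n a k M : ℕ} (h1 : n ≤ M) (h2 : a ≤ M) (h3 : k ≤ M) :
    2 ^ (sz ((n, (a, k)) : Q1) + 1) ≤ ww M := by
  refine le_trans (Nat.pow_le_pow_right (by norm_num) ?_) (q2_bound h1 h2 h3 (Nat.zero_le M)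
    (Nat.zero_le M) (Nat.zero_le M) (Nat.zero_le M))
  rw [sz_pair (n, (a, k))]
  omega

theorem q0_bound {n a M : ℕ} (h1 : n ≤ M) (h2 : a ≤ M) :
    2 ^ (sz ((n, a) : ℕ × ℕ) + 1) ≤ ww M := by
  refine le_trans (Nat.pow_le_pow_right (by norm_num) ?_) (q1_bound h1 h2 (Nat.zero_le M))
  rw [sz_pair, sz_pair, sz_pair]
  omega

theorem add_two_le (n a : ℕ) : n + a + 2 ≤ 2 ^ (sz ((n, a) : ℕ × ℕ) + 1) := by
  have h1 : ∀ m : ℕ, m + 1 ≤ 2 ^ sz m := fun m => by
    have h9 : m < 2 ^ m.size := Nat.lt_size_self m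
    have h10 := size_le_sz m
    have h11 : 2 ^ m.size ≤ 2 ^ sz m := Nat.pow_le_pow_right (by norm_num) (by omega)
    omega
  have h2 := h1 n
  have h3 := h1 a
  rw [sz_pair]
  have h4 : 2 ^ (sz n + sz a + 1 + 1) = 2 * (2 * (2 ^ sz n * 2 ^ sz a)) := by
    rw [pow_succ, pow_succ, pow_add]
    ring
  rw [h4]
  nlinarith [Nat.zero_le n, Nat.zero_le a]

theorem PB.exp {F : ℕ → ℕ} (hF : PB F) : ∃ e : ℕ, ∀ t, 2 ≤ t → F t ≤ t ^ e := by
  obtain ⟨q, hq⟩ := hF
  obtain ⟨e, he⟩ := exists_pow_bound q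
  exact ⟨e, fun t ht => (hq t).trans (he t ht)⟩

theorem ww_pb {F : ℕ → ℕ} (hF : PB F) : PB (fun t => ww (F t)) :=
  (PB.const _).mul ((((PB.const 2).mul ((((PB.const 2).mul hF).add (PB.const 1)).pow 4))).pow 7)

theorem zz_pb {F G H : ℕ → ℕ} (hF : PB F) (hG : PB G) (hH : PB H) :
    PB (fun t => zz (F t) (G t) (H t)) := by
  have h1 : PB (fun t => F t * (4 * F t + 2)) :=
    hF.mul (((PB.const 4).mul hF).add (PB.const 2))
  exact (((hF.pow 2).mul (((h1.add ((PB.const 4).mul hG)).add ((PB.const 4).mul hH)).add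
    (PB.const 6))).add h1).add (PB.const 3)

theorem zz_mono {N n m N' n' m' : ℕ} (h1 : N ≤ N') (h2 : n ≤ n') (h3 : m ≤ m') :
    zz N n m ≤ zz N' n' m' := by
  unfold zz
  gcongr

end Pool.Agent.TH682.EN
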