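import Pool.Agent.TH682.EN.Prog

/-!
# The table of the canonical elements
-/

set_option autoImplicit false

namespace Pool.Agent.TH682.EN

open Pool.Agent.NPC Pool.Agent.TH682.GD
open Pool.Agent.TH682.KD (isp isp_vals exists_of_isp)

/-- The largest number up to `B` with the property `p`. -/
def mx (p : ℕ → Bool) (B : ℕ) : ℕ := (((List.range (B + 1)).reverse.filter p).head?).getD 0

theorem mx_succ (p : ℕ → Bool) (B : ℕ) : mx p (B + 1) = if p (B + 1) then B + 1 else mx p B := by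
  unfold mx
  rw [List.range_succ, List.reverse_append, List.reverse_cons, List.reverse_nil, List.nil_append,
    List.singleton_append, List.filter_cons]
  split_ifs <;> simp

theorem mx_eq {p : ℕ → Bool} {K : ℕ} (hK : p K = true) : ∀ B : ℕ, K ≤ B →
    (∀ k ≤ B, p k = true → k ≤ K) → mx p B = K := by
  intro B
  induction B with
  | zero =>
    intro h1 _
    have h2 : K = 0 := by omega
    subst h2
    unfold mx
    simp [List.filter_cons, hK]
  | succ B ih =>
    intro h1 h2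
    rw [mx_succ]
    by_cases h3 : p (B + 1) = true
    · rw [if_pos h3]
      have := h2 (B + 1) le_rfl h3
      omega
    · rw [if_neg h3]
      have h4 : K ≠ B + 1 := fun h => h3 (h ▸ hK)
      exact ih (by omega) fun k hk => h2 k (by omega)

/-- The row of a key. -/
def rw' (N : ℕ) (g : (ℕ × ℕ) × (ℕ × ℕ) → Bool) (r : ℕ × ℕ) : List ℕ :=
  (List.range N).map (fun j => (((List.range N).filter (fun u => g (r, (j, u)))).head?).getD 0)

/-- The table. -/
def asm (N : ℕ) (g : (ℕ × ℕ) × (ℕ × ℕ) → Bool) : List (List ℕ) :=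
  ((List.range N ×ˢ List.range N).filter (fun r => g (r, r))).map (rw' N g)

variable {N : ℕ} {G : Subgroup (Equiv.Perm (Fin N))} {g : (ℕ × ℕ) × (ℕ × ℕ) → Bool}

theorem row_eq (hg : ∀ i < N, ∀ v < N, ∀ j < N, ∀ u < N, (g ((i, v), (j, u)) = true ↔
    ∃ τ, Can G i v τ ∧ (vals τ).getD j 0 = u)) {i v : ℕ} (hi : i < N) (hv : v < N)
    {τ : Equiv.Perm (Fin N)} (hτ : Can G i v τ) : rw' N g (i, v) = vals τ := by
  unfold rw'
  refine List.ext_getElem (by simp) fun j h1 h2 => ?_
  rw [vals_length] at h2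
  rw [List.getElem_map, List.getElem_range, vals_getElem]
  have h3 := vals_getD τ ⟨j, h2⟩
  simp only at h3
  have h4 : ((List.range N).filter (fun u => g ((i, v), (j, u)))).head? =
      some ((τ ⟨j, h2⟩ : Fin N) : ℕ) := by
    refine head?_filter_range _ _ (τ ⟨j, h2⟩).2 ?_ fun u hu => ?_
    · rw [hg i hi v hv j h2 _ (τ ⟨j, h2⟩).2]
      exact ⟨τ, hτ, h3⟩
    · rw [Bool.eq_false_iff]
      intro h5
      obtain ⟨τ', h6, h7⟩ := (hg i hi v hv j h2 u (lt_trans hu (τ ⟨j, h2⟩).2)).1 h5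
      rw [can_unique h6 hτ, h3] at h7
      omega
  rw [h4]
  rfl

/-- **The table of the canonical elements is complete.** -/
theorem asm_spec (hg : ∀ i < N, ∀ v < N, ∀ j < N, ∀ u < N, (g ((i, v), (j, u)) = true ↔
    ∃ τ, Can G i v τ ∧ (vals τ).getD j 0 = u)) :
    Tab N (asm N g) ∧ (∀ v ∈ asm N g, InH G v) ∧
      ∀ σ ∈ G, key (sft (asm N g) (vals σ)) = none := by
  classical
  have h1 : ∀ r ∈ (List.range N ×ˢ List.range N).filter (fun r => g (r, r)),
      ∃ τ, Can G r.1 r.2 τ ∧ rw' N g r = vals τ := by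
    rintro ⟨i, v⟩ hr
    rw [List.mem_filter, List.mem_product, List.mem_range, List.mem_range] at hr
    obtain ⟨⟨hi, hv⟩, h2⟩ := hr
    obtain ⟨τ, hτ, _⟩ := (hg i hi v hv i hi v hv).1 h2
    exact ⟨τ, hτ, row_eq hg hi hv hτ⟩
  have h2 : (asm N g).map key =
      ((List.range N ×ˢ List.range N).filter (fun r => g (r, r))).map some := by
    unfold asm
    rw [List.map_map]
    refine List.map_congr_left fun r hr => ?_
    obtain ⟨τ, h3, h4⟩ := h1 r hr
    show key (rw' N g r) = some r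
    rw [h4, h3.2.1]
  have h3 : Tab N (asm N g) := by
    refine ⟨fun v hv => ?_, ?_⟩
    · obtain ⟨r, hr, rfl⟩ := List.mem_map.1 hv
      obtain ⟨τ, h3, h4⟩ := h1 r hr
      refine ⟨τ, h4.symm, fun h => ?_⟩
      have := h3.2.1
      rw [(key_none τ).2 h] at this
      simp at this
    · rw [h2]
      exact ((List.nodup_range.product List.nodup_range).filter _).map (Option.some_injective _)
  have h4 : ∀ v ∈ asm N g, InH G v := by
    intro v hv
    obtain ⟨r, hr, rfl⟩ := List.mem_map.1 hv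
    obtain ⟨τ, h3, h4⟩ := h1 r hr
    exact ⟨τ, h3.1, h4.symm⟩
  refine ⟨h3, h4, fun σ hσ => ?_⟩
  obtain ⟨σ', h5, h6, h7⟩ := sft_spec h3 σ
  rw [h5]
  by_contra hcon
  have h8 : σ' ≠ 1 := fun h => hcon ((key_none σ').2 h)
  have h9 := h7.resolve_right h8
  have h10 : σ' ∈ G := (h6 G h4).1 hσ
  obtain ⟨⟨i, v⟩, hiv⟩ := Option.ne_none_iff_exists'.1 hcon
  obtain ⟨τ, hτ⟩ := can_exists h10 hiv
  obtain ⟨hi, k1, k2, _, hv⟩ := key_some hτ.2.1
  apply h9
  rw [h2, hiv]
  refine List.mem_map.2 ⟨(i, v), ?_, rfl⟩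
  rw [List.mem_filter, List.mem_product, List.mem_range, List.mem_range]
  refine ⟨⟨hi, hv⟩, (hg i hi v hv i hi v hv).2 ⟨τ, hτ, ?_⟩⟩
  have := vals_getD τ ⟨i, hi⟩
  simp only at this
  rw [this, k2]

end Pool.Agent.TH682.EN
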