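import Pool.Agent.TH682.EN.Pad
import Pool.Agent.TH682.EN.Asm

/-!
# The nondeterministic checks
-/

set_option autoImplicit false

namespace Pool.Agent.TH682.EN

open Pool.Agent.NPC Pool.Agent.H579R2.Spt Pool.Agent.TH682.GD Pool.Agent.TH682.HS
open Pool.Agent.TH682.KD (isp isp_vals exists_of_isp)

/-- Programs with witnesses. -/
abbrev Crp := List (List ℕ × (List Bool × List Bool))

/-- The program. -/
def fgt (ws : Crp) : Prg := ws.map (fun o => (o.1, o.2.1))

/-- The check of validity. -/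
def vchk (F : List Bool → List ℕ) (ops : Prg) : Bool :=
  (List.range ops.length).all (fun i => isp (ith ops i).1 &&
    (decide ((ith ops i).1.length = (F (ith ops i).2).length) &&
      decide (key (sft (tbl [] ((prs F ops).take i)) (ith ops i).1) = none))) &&
    decide ((tbl [] (prs F ops)).length = ops.length)

theorem vchk_iff {F : List Bool → List ℕ} {ops : Prg} : vchk F ops = true ↔ Vld F ops := by
  unfold vchk Vld
  simp only [Bool.and_eq_true, List.all_eq_true, List.mem_range, decide_eq_true_eq]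

/-- The check of the witnesses. -/
def wchk (V : List Bool → List Bool) (p : Polynomial ℕ) (n : ℕ) (ws : Crp) : Bool :=
  ws.all (fun o => decide (o.2.1.length = n) && (decide (o.2.2.length ≤ p.eval o.2.1.length) &&
    decide (V (pairBits o.2.1 o.2.2) = [true])))

section poly

variable {α : Type} [TEnc α]

theorem isp_poly {v : α → List ℕ} (hv : Poly v) : Poly (fun a => isp (v a)) :=
  NPC.Poly.all (l := fun a => List.range (v a).length) (p := fun a i => decide (i ∈ v a))
    (UPoly.length hv).range (NPC.Poly.decide_mem (NPC.Poly.snd NPC.Poly.id)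
      (hv.comp (NPC.Poly.fst NPC.Poly.id)))

theorem fgt_poly {ws : α → Crp} (hw : Poly ws) : Poly (fun a => fgt (ws a)) :=
  NPC.Poly.map (l := ws) (F := fun _ o => (o.1, o.2.1)) hw
    (NPC.Poly.pair (NPC.Poly.fst (NPC.Poly.snd NPC.Poly.id))
      (NPC.Poly.fst (NPC.Poly.snd (NPC.Poly.snd NPC.Poly.id))))

variable {f : List Bool → List ℕ} {A : α → ℕ} {ops : α → Prg}

theorem prs_poly (hf : Poly f) (hA : Poly A) (ho : Poly ops) :
    Poly (fun r => prs (fa f (A r)) (ops r)) := by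
  have f1 : Poly (fun q : α × (List ℕ × List Bool) => q.1) := NPC.Poly.fst NPC.Poly.id
  have f2 : Poly (fun q : α × (List ℕ × List Bool) => q.2) := NPC.Poly.snd NPC.Poly.id
  refine NPC.Poly.map (l := ops) (F := fun r o => GD.cmp o.1 (fa f (A r) o.2)) ho
    (cmp_poly (NPC.Poly.fst f2) (hf.comp (bits_poly.comp (NPC.Poly.pair (NPC.Poly.snd f2)
      (hA.comp f1)))))

theorem vchk_poly (hf : Poly f) (hA : Poly A) (ho : Poly ops) :
    Poly (fun r => vchk (fa f (A r)) (ops r)) := by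
  have f1 : Poly (fun q : α × ℕ => q.1) := NPC.Poly.fst NPC.Poly.id
  have f2 : Poly (fun q : α × ℕ => q.2) := NPC.Poly.snd NPC.Poly.id
  have hith : Poly (fun q : α × ℕ => ith (ops q.1) q.2) :=
    NPC.Poly.getD (ho.comp f1) f2 (NPC.Poly.const ([], []))
  have h1 := NPC.Poly.fst hith
  have h2 := NPC.Poly.snd hith
  have hA1 := hA.comp f1
  refine NPC.Poly.and (NPC.Poly.all (l := fun r => List.range (ops r).length)
    (p := fun r i => isp (ith (ops r) i).1 &&
      (decide ((ith (ops r) i).1.length = (fa f (A r) (ith (ops r) i).2).length) &&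
        decide (key (sft (tbl [] ((prs (fa f (A r)) (ops r)).take i)) (ith (ops r) i).1) = none)))
    (UPoly.length ho).range ?_) ?_
  · refine NPC.Poly.and (isp_poly h1) (NPC.Poly.and ?_ ?_)
    · exact NPC.Poly.decide_eq (NPC.Poly.length h1) (NPC.Poly.length
        (hf.comp (bits_poly.comp (NPC.Poly.pair h2 hA1))))
    · exact NPC.Poly.decide_eq (key_poly (sft_poly (tbl_poly (take_poly'
        (prs_poly hf hA1 (ho.comp f1)) f2)) h1)) (NPC.Poly.const _)
  · exact NPC.Poly.decide_eq (NPC.Poly.length (tbl_poly (prs_poly hf hA ho)))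
      (NPC.Poly.length ho)

theorem wchk_poly {V : List Bool → List Bool} (p : Polynomial ℕ) (hV : Poly V) {n : α → ℕ}
    {ws : α → Crp} (hn : Poly n) (hw : Poly ws) : Poly (fun r => wchk V p (n r) (ws r)) := by
  have a1 : Poly (fun s : α × (List ℕ × (List Bool × List Bool)) => s.2.2.1) :=
    NPC.Poly.fst (NPC.Poly.snd (NPC.Poly.snd NPC.Poly.id))
  have a2 : Poly (fun s : α × (List ℕ × (List Bool × List Bool)) => s.2.2.2) :=
    NPC.Poly.snd (NPC.Poly.snd (NPC.Poly.snd NPC.Poly.id))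
  exact NPC.Poly.all (l := ws) (p := fun r o => decide (o.2.1.length = n r) &&
    (decide (o.2.2.length ≤ p.eval o.2.1.length) && decide (V (pairBits o.2.1 o.2.2) = [true])))
    hw (NPC.Poly.and (NPC.Poly.decide_eq (NPC.Poly.length a1)
      (hn.comp (NPC.Poly.fst NPC.Poly.id))) (NPC.Poly.and (NPC.Poly.decide_le
        (NPC.Poly.length a2) ((UPoly.length a1).eval p).toPoly) (NPC.Poly.decide_eq
          (hV.comp (Pool.Agent.H622R2.poly_pairBits a1 a2)) (NPC.Poly.const _))))

theorem mchk_poly {T : α → List (List ℕ)} {i : α → ℕ} {τ : α → List ℕ} (hT : Poly T)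
    (hi : Poly i) (hτ : Poly τ) : Poly (fun r => mchk (T r) (i r) (τ r)) := by
  have f1 : Poly (fun q : α × List ℕ => q.1) := NPC.Poly.fst NPC.Poly.id
  have k : Poly (fun q : α × List ℕ => (key q.2).getD (0, 0)) :=
    NPC.Poly.optGetD (key_poly (NPC.Poly.snd NPC.Poly.id)) (NPC.Poly.const _)
  exact NPC.Poly.all (l := T) (p := fun r ρ => decide (((key ρ).getD (0, 0)).1 ≤ i r) ||
    decide ((τ r).getD ((key ρ).getD (0, 0)).1 0 ≤ (τ r).getD ((key ρ).getD (0, 0)).2 0)) hT
    (NPC.Poly.or (NPC.Poly.decide_le (NPC.Poly.fst k) (hi.comp f1))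
      (NPC.Poly.decide_le (NPC.Poly.getD (hτ.comp f1) (NPC.Poly.fst k) (NPC.Poly.const 0))
        (NPC.Poly.getD (hτ.comp f1) (NPC.Poly.snd k) (NPC.Poly.const 0))))

end poly

/-- Queries for the length of a program. -/
abbrev Q1 := ℕ × (ℕ × ℕ)

/-- Queries for the values of the canonical elements. -/
abbrev Q2 := Q1 × ((ℕ × ℕ) × (ℕ × ℕ))

/-- There is a certified program. -/
def c1 (f : List Bool → List ℕ) (V : List Bool → List Bool) (p : Polynomial ℕ) (q : Q1)
    (ws : Crp) : Bool :=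
  wchk V p q.1 ws && (vchk (fa f q.2.1) (fgt ws) && decide (ws.length = q.2.2))

/-- The table of a certified program. -/
def tw (f : List Bool → List ℕ) (a : ℕ) (ws : Crp) : List (List ℕ) :=
  tbl [] (prs (fa f a) (fgt ws))

/-- The value of a canonical element. -/
def c2 (f : List Bool → List ℕ) (V : List Bool → List Bool) (p : Polynomial ℕ) (q : Q2)
    (w : Crp × List ℕ) : Bool :=
  c1 f V p q.1 w.1 && (isp w.2 && ((tw f q.1.2.1 w.1).any (fun t => decide (t.length =
    w.2.length)) && (decide (key (sft (tw f q.1.2.1 w.1) w.2) = none) &&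
      (decide (key w.2 = some q.2.1) && (mchk (tw f q.1.2.1 w.1) q.2.1.1 w.2 &&
        decide (w.2.getD q.2.2.1 0 = q.2.2.2))))))

section poly2

variable {f : List Bool → List ℕ} {V : List Bool → List Bool} {α : Type} [TEnc α]

theorem c1_poly (p : Polynomial ℕ) (hf : Poly f) (hV : Poly V) {q : α → Q1} {ws : α → Crp}
    (hq : Poly q) (hw : Poly ws) : Poly (fun r => c1 f V p (q r) (ws r)) :=
  NPC.Poly.and (wchk_poly p hV (NPC.Poly.fst hq) hw) (NPC.Poly.and
    (vchk_poly hf (NPC.Poly.fst (NPC.Poly.snd hq)) (fgt_poly hw))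
    (NPC.Poly.decide_eq (NPC.Poly.length hw) (NPC.Poly.snd (NPC.Poly.snd hq))))

theorem tw_poly (hf : Poly f) {a : α → ℕ} {ws : α → Crp}
    (ha : Poly a) (hw : Poly ws) : Poly (fun r => tw f (a r) (ws r)) :=
  tbl_poly (prs_poly hf ha (fgt_poly hw))

theorem c2_poly (p : Polynomial ℕ) (hf : Poly f) (hV : Poly V) {q : α → Q2}
    {w : α → Crp × List ℕ} (hq : Poly q) (hw : Poly w) :
    Poly (fun r => c2 f V p (q r) (w r)) := by
  have q1 := NPC.Poly.fst hq
  have q2 := NPC.Poly.snd hq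
  have w1 := NPC.Poly.fst hw
  have w2 := NPC.Poly.snd hw
  have ht := tw_poly hf (NPC.Poly.fst (NPC.Poly.snd q1)) w1
  refine NPC.Poly.and (c1_poly p hf hV q1 w1) (NPC.Poly.and (isp_poly w2) (NPC.Poly.and ?_
    (NPC.Poly.and (NPC.Poly.decide_eq (key_poly (sft_poly ht w2)) (NPC.Poly.const _))
      (NPC.Poly.and (NPC.Poly.decide_eq (key_poly w2) (NPC.Poly.some (NPC.Poly.fst q2)))
        (NPC.Poly.and (mchk_poly ht (NPC.Poly.fst (NPC.Poly.fst q2)) w2)
          (NPC.Poly.decide_eq (NPC.Poly.getD w2 (NPC.Poly.fst (NPC.Poly.snd q2))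
            (NPC.Poly.const 0)) (NPC.Poly.snd (NPC.Poly.snd q2))))))))
  exact NPC.Poly.any (l := fun r => tw f (q r).1.2.1 (w r).1)
    (p := fun r t => decide (t.length = (w r).2.length)) ht
    (NPC.Poly.decide_eq (NPC.Poly.length (NPC.Poly.snd NPC.Poly.id))
      (NPC.Poly.length (w2.comp (NPC.Poly.fst NPC.Poly.id))))

end poly2

/-- The bound of the certificates. -/
def zz (N n m : ℕ) : ℕ :=
  N ^ 2 * (N * (4 * N + 2) + 4 * n + 4 * m + 6) + N * (4 * N + 2) + 3

theorem sz_vals {N : ℕ} (σ : Equiv.Perm (Fin N)) : sz (vals σ) ≤ N * (4 * N + 2) + 1 := by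
  have h1 := sz_le_length_mul (vals σ) (4 * N + 1) fun e he => by
    unfold vals at he
    rw [List.mem_ofFn] at he
    obtain ⟨i, rfl⟩ := he
    have h2 := sz_nat_le (σ i : ℕ)
    have h3 := NPC.Poly.size_le_self (σ i : ℕ)
    have h4 := (σ i).2
    omega
  rw [vals_length] at h1
  exact h1

section sem

variable {f : List Bool → List ℕ} {V : List Bool → List Bool} {p : Polynomial ℕ}
  {A : Set (List Bool)} {n a N : ℕ} {s : List Bool → Equiv.Perm (Fin N)}

/-- The members of length `n`. -/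
def mem (A : Set (List Bool)) (n : ℕ) : Set (List Bool) := {x | x.length = n ∧ x ∈ A}

theorem fgt_length (ws : Crp) : (fgt ws).length = ws.length := by
  unfold fgt
  rw [List.length_map]

/-- Soundness of the first check. -/
theorem of_c1 (hVA : ∀ x, x ∈ A ↔ ∃ w : List Bool, w.length ≤ p.eval x.length ∧
    V (pairBits x w) = [true]) {k : ℕ} {ws : Crp} (h : c1 f V p (n, (a, k)) ws = true) :
    Vld (fa f a) (fgt ws) ∧ (∀ o ∈ fgt ws, o.2 ∈ mem A n) ∧ (fgt ws).length = k := by
  unfold c1 wchk at h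
  simp only [Bool.and_eq_true, vchk_iff, List.all_eq_true, decide_eq_true_eq] at h
  obtain ⟨h1, h2, h3⟩ := h
  refine ⟨h2, fun o ho => ?_, by rw [fgt_length]; exact h3⟩
  unfold fgt at ho
  obtain ⟨o', ho', rfl⟩ := List.mem_map.1 ho
  obtain ⟨h4, h5, h6⟩ := h1 o' ho'
  exact ⟨h4, (hVA _).2 ⟨_, h5, h6⟩⟩

/-- Completeness of the first check. -/
theorem c1_of (hVA : ∀ x, x ∈ A ↔ ∃ w : List Bool, w.length ≤ p.eval x.length ∧
    V (pairBits x w) = [true]) (hs : ∀ x ∈ mem A n, fa f a x = vals (s x)) {k : ℕ} {ops : Prg}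
    (h1 : Vld (fa f a) ops) (h2 : ∀ o ∈ ops, o.2 ∈ mem A n) (h3 : ops.length = k) :
    ∃ ws : Crp, fgt ws = ops ∧ c1 f V p (n, (a, k)) ws = true ∧
      sz ws ≤ N ^ 2 * (N * (4 * N + 2) + 4 * n + 4 * p.eval n + 6) + 1 := by
  classical
  choose! W hW using fun x (hx : x ∈ mem A n) => (hVA x).1 hx.2
  have hfg : fgt (ops.map (fun o => (o.1, (o.2, W o.2)))) = ops := by
    unfold fgt
    rw [List.map_map]
    exact (List.map_congr_left fun x _ => rfl).trans (List.map_id ops)
  refine ⟨ops.map (fun o => (o.1, (o.2, W o.2))), hfg, ?_, ?_⟩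
  · unfold c1 wchk
    simp only [Bool.and_eq_true, vchk_iff, List.all_eq_true, decide_eq_true_eq]
    refine ⟨fun o ho => ?_, by rw [hfg]; exact h1, by rw [List.length_map]; exact h3⟩
    obtain ⟨o', ho', rfl⟩ := List.mem_map.1 ho
    have h4 := h2 o' ho'
    exact ⟨h4.1, (hW _ h4).1, (hW _ h4).2⟩
  · have h4 := sz_le_length_mul (ops.map (fun o => (o.1, (o.2, W o.2))))
      (N * (4 * N + 2) + 4 * n + 4 * p.eval n + 5) fun q hq => by
        obtain ⟨o, ho, rfl⟩ := List.mem_map.1 hq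
        have hm := h2 o ho
        obtain ⟨i, hi, hio⟩ := List.getElem_of_mem ho
        have hio' : ith ops i = o := by
          unfold ith
          rw [List.getD_eq_getElem _ _ hi, hio]
        obtain ⟨k1, k2, _⟩ := h1.1 i hi
        rw [hio'] at k1 k2
        rw [hs _ hm, vals_length] at k2
        obtain ⟨π, hπ⟩ := exists_of_isp k1
        have k3 := sz_vals π
        rw [hπ, k2] at k3
        rw [sz_pair, sz_pair]
        have h5 := sz_listBool_le o.2
        have h6 := sz_listBool_le (W o.2)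
        have h7 := (hW _ hm).1
        rw [hm.1] at h5 h7
        show sz o.1 + (sz o.2 + sz (W o.2) + 1) + 1 ≤ _
        omega
    rw [List.length_map] at h4
    have h5 := vld_length_le hs h1 h2
    refine h4.trans (Nat.add_le_add_right (Nat.mul_le_mul h5 ?_) 1)
    omega

/-- The first predicate. -/
theorem c1_iff (hVA : ∀ x, x ∈ A ↔ ∃ w : List Bool, w.length ≤ p.eval x.length ∧
    V (pairBits x w) = [true]) (hs : ∀ x ∈ mem A n, fa f a x = vals (s x)) {k B : ℕ}
    (hB : zz N n (p.eval n) ≤ B) : (∃ w : List Bool, w.length ≤ B ∧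
      c1 f V p (n, (a, k)) ((unbits Crp w).getD []) = true) ↔
        ∃ ops : Prg, Vld (fa f a) ops ∧ (∀ o ∈ ops, o.2 ∈ mem A n) ∧ ops.length = k := by
  constructor
  · rintro ⟨w, _, h⟩
    exact ⟨_, of_c1 hVA h⟩
  · rintro ⟨ops, h1, h2, h3⟩
    obtain ⟨ws, h4, h5, h6⟩ := c1_of (V := V) (p := p) hVA hs h1 h2 h3
    refine ⟨bits ws, ?_, ?_⟩
    · rw [bits_length]
      refine le_trans ?_ hB
      unfold zz
      omega
    · rw [unbits_bits]
      exact h5

/-- The second predicate. -/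
theorem c2_iff (hVA : ∀ x, x ∈ A ↔ ∃ w : List Bool, w.length ≤ p.eval x.length ∧
    V (pairBits x w) = [true]) (hs : ∀ x ∈ mem A n, fa f a x = vals (s x)) {K B : ℕ}
    (hB : zz N n (p.eval n) ≤ B)
    (hK : ∃ ops : Prg, Vld (fa f a) ops ∧ (∀ o ∈ ops, o.2 ∈ mem A n) ∧ ops.length = K)
    (hmax : ∀ ops : Prg, Vld (fa f a) ops → (∀ o ∈ ops, o.2 ∈ mem A n) → ops.length ≤ K)
    {i v j u : ℕ} : (∃ w : List Bool, w.length ≤ B ∧
      c2 f V p ((n, (a, K)), ((i, v), (j, u))) ((unbits (Crp × List ℕ) w).getD ([], [])) =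
        true) ↔ ∃ τ, Can (Subgroup.closure (s '' mem A n)) i v τ ∧ (vals τ).getD j 0 = u := by
  constructor
  · rintro ⟨w, _, h⟩
    generalize (unbits (Crp × List ℕ) w).getD ([], []) = q at h
    obtain ⟨ws, τ⟩ := q
    unfold c2 at h
    simp only [Bool.and_eq_true, decide_eq_true_eq, List.any_eq_true] at h
    obtain ⟨h1, h2, ⟨t, ht, h3⟩, h4, h5, h6, h7⟩ := h
    obtain ⟨k1, k2, k3⟩ := of_c1 hVA h1
    obtain ⟨k4, k5⟩ := vld_tab hs k1 k2
    have k6 := complete_of_max hs k1 k2 fun ops' l1 l2 => by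
      rw [k3]
      exact hmax ops' l1 l2
    obtain ⟨ρ, hρ, _⟩ := k4.1 t ht
    rw [← hρ, vals_length] at h3
    obtain ⟨π, hπ⟩ := exists_of_isp h2
    obtain ⟨π', hπ'⟩ : ∃ π' : Equiv.Perm (Fin N), vals π' = τ := by
      revert π
      rw [← h3]
      exact fun π hπ => ⟨π, hπ⟩
    subst hπ'
    exact ⟨π', (can_iff k4 k5 k6).2 ⟨h4, h5, h6⟩, h7⟩
  · rintro ⟨τ, h1, h2⟩
    obtain ⟨ops, h3, h4, h5⟩ := hK
    obtain ⟨ws, h6, h7, h8⟩ := c1_of (V := V) (p := p) hVA hs h3 h4 h5
    obtain ⟨k4, k5⟩ := vld_tab hs h3 h4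
    have k6 := complete_of_max hs h3 h4 fun ops' l1 l2 => by
      rw [h5]
      exact hmax ops' l1 l2
    obtain ⟨k7, k8, k9⟩ := (can_iff k4 k5 k6).1 h1
    refine ⟨bits (ws, vals τ), ?_, ?_⟩
    · rw [bits_length, sz_pair]
      refine le_trans ?_ hB
      have := sz_vals τ
      unfold zz
      omega
    · rw [unbits_bits]
      unfold c2 tw
      simp only [Option.getD_some, Bool.and_eq_true, decide_eq_true_eq, List.any_eq_true, h6]
      refine ⟨h7, isp_vals τ, ?_, k7, k8, k9, h2⟩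
      obtain ⟨t, ht, _⟩ := key_mem_of_complete (σ := τ) (fun h => by
        rw [(key_none τ).2 h] at k8
        simp at k8) k7
      refine ⟨t, ht, ?_⟩
      obtain ⟨ρ, hρ, _⟩ := k4.1 t ht
      rw [← hρ, vals_length, vals_length]

end sem

end Pool.Agent.TH682.EN
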