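import Pool.Agent.TH682.EN.Alg

/-!
# The decision in polynomial time
-/

set_option autoImplicit false

namespace Pool.Agent.TH682.EN

open Pool.Agent.NPC Pool.Agent.H579R2.Spt Pool.Agent.TH682.GD Pool.Agent.TH682.HS
open Pool.Agent.TH684.EX (poly_of_polyTime)
open Pool.Agent.TH682.VC (PB two_pow_size_le)
open Pool.Agent.TH682.EL (InE)
open Pool.Agent.W901.FH (pow_polyc pow_upolyc)

/-- Certificates against the advice: padding, member, witness. -/
abbrev Q3 := List Bool × (List Bool × List Bool)

/-- The check: a member of length `n` is not sifted to the identity. -/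
def c3 (f : List Bool → List ℕ) (V : List Bool → List Bool) (p : Polynomial ℕ)
    (g1 : Q1 × List Bool → Bool) (g2 : Q2 × List Bool → Bool) (d : ℕ) (q : ℕ × ℕ) (w : Q3) : Bool :=
  decide (w.1.length = (q.1 + q.2 + 2) ^ d) && (decide (w.2.1.length = q.1) &&
    (decide (w.2.2.length ≤ p.eval w.2.1.length) && (decide (V (pairBits w.2.1 w.2.2) = [true]) &&
      !decide (key (sft (Ft f g1 g2 (List.replicate w.1.length true) q.1 q.2)
        (fa f q.2 w.2.1)) = none))))

theorem c3_poly {f : List Bool → List ℕ} {V : List Bool → List Bool} (p : Polynomial ℕ)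
    {g1 : Q1 × List Bool → Bool} {g2 : Q2 × List Bool → Bool} (d : ℕ) (hf : Poly f) (hV : Poly V)
    (h1 : Poly g1) (h2 : Poly g2) {α : Type} [TEnc α] {q : α → ℕ × ℕ} {w : α → Q3} (hq : Poly q)
    (hw : Poly w) : Poly (fun r => c3 f V p g1 g2 d (q r) (w r)) := by
  have q1 := NPC.Poly.fst hq
  have q2 := NPC.Poly.snd hq
  have w1 := NPC.Poly.fst hw
  have w2 := NPC.Poly.fst (NPC.Poly.snd hw)
  have w3 := NPC.Poly.snd (NPC.Poly.snd hw)
  refine NPC.Poly.and (NPC.Poly.decide_eq (NPC.Poly.length w1) (pow_polyc (NPC.Poly.add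
    (NPC.Poly.add q1 q2) (NPC.Poly.const 2)) d)) (NPC.Poly.and (NPC.Poly.decide_eq
      (NPC.Poly.length w2) q1) (NPC.Poly.and (NPC.Poly.decide_le (NPC.Poly.length w3)
        ((UPoly.length w2).eval p).toPoly) (NPC.Poly.and (NPC.Poly.decide_eq
          (hV.comp (Pool.Agent.H622R2.poly_pairBits w2 w3)) (NPC.Poly.const _))
            (NPC.Poly.not (NPC.Poly.decide_eq (key_poly (sft_poly ?_ ?_)) (NPC.Poly.const _))))))
  · exact Ft_poly hf h1 h2 q1 q2 (replicate_poly (UPoly.length w1) true)
  · exact hf.comp (bits_poly.comp (NPC.Poly.pair w2 q2))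

/-- The padding for the advice `a`. -/
def pd (b d n a : ℕ) : List Bool := List.replicate ((n + min a (n ^ b + b) + 2) ^ d) true

/-- The advice `a` refutes membership. -/
def rf (f : List Bool → List ℕ) (g1 : Q1 × List Bool → Bool) (g2 : Q2 × List Bool → Bool)
    (g3 : (ℕ × ℕ) × List Bool → Bool) (b d d3 : ℕ) (x : List Bool) (a : ℕ) : Bool :=
  !(g3 ((x.length, a), pd b d3 x.length a)) &&
    !decide (key (sft (Ft f g1 g2 (pd b d x.length a) x.length a) (fa f a x)) = none)

/-- The decision. -/
def fin (f : List Bool → List ℕ) (g1 : Q1 × List Bool → Bool) (g2 : Q2 × List Bool → Bool)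
    (g3 : (ℕ × ℕ) × List Bool → Bool) (b d d3 : ℕ) (x : List Bool) : Bool :=
  !((List.range (x.length ^ b + b + 1)).any (rf f g1 g2 g3 b d d3 x))

theorem fin_poly {f : List Bool → List ℕ} {g1 : Q1 × List Bool → Bool}
    {g2 : Q2 × List Bool → Bool} {g3 : (ℕ × ℕ) × List Bool → Bool} (b d d3 : ℕ) (hf : Poly f)
    (h1 : Poly g1) (h2 : Poly g2) (h3 : Poly g3) : Poly (fin f g1 g2 g3 b d d3) := by
  have hl : UPoly (fun x : List Bool => x.length) := UPoly.length NPC.Poly.id
  have hr : UPoly (fun x : List Bool => x.length ^ b + b) := (pow_upolyc hl b).add (UPoly.const b)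
  have e1 : Poly (fun q : List Bool × ℕ => q.1) := NPC.Poly.fst NPC.Poly.id
  have e2 : Poly (fun q : List Bool × ℕ => q.2) := NPC.Poly.snd NPC.Poly.id
  have hl1 := hl.comp e1
  have hr1 := hr.comp e1
  have hpd : ∀ d : ℕ, Poly (fun q : List Bool × ℕ => pd b d q.1.length q.2) := fun d =>
    replicate_poly (pow_upolyc ((hl1.add (UPoly.of_le (NPC.Poly.min e2 hr1.toPoly) hr1
      fun r => min_le_right _ _)).add (UPoly.const 2)) d) true
  refine NPC.Poly.not (NPC.Poly.any (l := fun x : List Bool => List.range (x.length ^ b + b + 1))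
    (p := rf f g1 g2 g3 b d d3) (hr.add (UPoly.const 1)).range ?_)
  refine NPC.Poly.and (NPC.Poly.not (h3.comp (NPC.Poly.pair (NPC.Poly.pair hl1.toPoly e2)
    (hpd d3)))) (NPC.Poly.not (NPC.Poly.decide_eq (key_poly (sft_poly ?_ ?_))
      (NPC.Poly.const _)))
  · exact Ft_poly hf h1 h2 hl1.toPoly e2 (hpd d)
  · exact hf.comp (bits_poly.comp (NPC.Poly.pair e1 e2))

/-- `E` is contained in `NE`. -/
theorem inNE_of_inE {L : Set (List Bool)} (h : InE L) : InNE L := by
  classical
  obtain ⟨V, c, hV, hVL⟩ := h
  have hVp : Poly V := PIso.poly_iff.2 hV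
  refine ⟨fun z => [decide ((unpair z).2.length = 2 ^ (c * ((unpair z).1.length + 1))) &&
    decide (V (pairBits (unpair z).1 (List.replicate (unpair z).2.length true)) = [true])], c,
      polyTime_of_poly ?_, fun x => ?_⟩
  · have e1 : Poly (fun z => (unpair z).1) := NPC.Poly.fst poly_unpair
    have e2 : Poly (fun z => (unpair z).2) := NPC.Poly.snd poly_unpair
    exact NPC.Poly.and (NPC.Poly.decide_eq (NPC.Poly.length e2) (HX.two_pow_poly
      ((UPoly.const c).mul ((UPoly.length e1).add (UPoly.const 1))))) (NPC.Poly.decide_eq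
        (hVp.comp (Pool.Agent.H622R2.poly_pairBits e1 (replicate_poly (UPoly.length e2) true)))
        (NPC.Poly.const _))
  · simp only [unpair_pairBits, List.cons.injEq, and_true, Bool.and_eq_true, decide_eq_true_eq]
    rw [hVL x]
    constructor
    · intro h
      exact ⟨List.replicate (2 ^ (c * (x.length + 1))) true, by simp, by simp, by simpa using h⟩
    · rintro ⟨w, _, h1, h2⟩
      rw [h1] at h2
      exact h2

/-- **If `E = NE`, then every set in `NP` which reduces to membership in nonuniform permutation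
groups is in `P`.** -/
theorem inP_of (hE : ∀ L : Set (List Bool), InNE L → InE L) {A : Set (List Bool)}
    (hA : InNP A) (hG : GroupMember A) : InP A := by
  classical
  obtain ⟨f, b, hf, hG⟩ := hG
  have hfp : Poly f := poly_of_polyTime hf
  obtain ⟨V, p, hVt, hVA⟩ := hA
  have hVp : Poly V := PIso.poly_iff.2 hVt
  obtain ⟨pf, hpf⟩ := (hfp.comp (bits_poly (α := List Bool × ℕ))).sz_le
  -- the bound of the number of points
  set Nb : ℕ → ℕ := fun t => pf.eval (4 * t + 3) with hNb
  have hNPB : PB Nb := by
    refine ⟨pf.comp (Polynomial.C 4 * Polynomial.X + 3), fun n => le_of_eq ?_⟩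
    rw [Polynomial.eval_comp]
    simp [hNb]
  have hNle : ∀ {n a N : ℕ}, (fa f a (List.replicate n false)).length = N →
      N ≤ Nb (n + a + 2) := by
    intro n a N h
    have h6 := hpf (List.replicate n false, a)
    have h7 := length_lt_sz (f (bits (List.replicate n false, a)))
    rw [show f (bits (List.replicate n false, a)) = fa f a (List.replicate n false) from rfl,
      h] at h7
    refine (h7.le.trans h6).trans (eval_mono pf ?_)
    rw [sz_pair]
    have h8 := sz_listBool_le (List.replicate n false)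
    have h9 := sz_nat_le a
    have h10 : a.size ≤ a := Nat.size_le.2 Nat.lt_two_pow_self
    rw [List.length_replicate] at h8
    omega
  -- the certificates
  obtain ⟨e, he⟩ := PB.exp (zz_pb hNPB PB.id ⟨p, fun n => le_rfl⟩)
  have hzz : ∀ {n a N : ℕ}, (fa f a (List.replicate n false)).length = N →
      zz N n (p.eval n) ≤ (n + a + 2) ^ e := fun {n a N} h =>
    (zz_mono (hNle h) (by omega) (eval_mono p (by omega))).trans (he (n + a + 2) (by omega))
  have hD1 : Poly (fun r : Q1 × List Bool => c1 f V p r.1 ((unbits Crp r.2).getD [])) :=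
    c1_poly p hfp hVp (NPC.Poly.fst NPC.Poly.id) (NPC.Poly.optGetD (poly_unbits.comp
      (NPC.Poly.snd NPC.Poly.id)) (NPC.Poly.const _))
  have hD2 : Poly (fun r : Q2 × List Bool => c2 f V p r.1
      ((unbits (Crp × List ℕ) r.2).getD ([], []))) :=
    c2_poly p hfp hVp (NPC.Poly.fst NPC.Poly.id) (NPC.Poly.optGetD (poly_unbits.comp
      (NPC.Poly.snd NPC.Poly.id)) (NPC.Poly.const _))
  obtain ⟨g1, k1, hg1, hg1s⟩ := gen hE hD1 e
  obtain ⟨g2, k2, hg2, hg2s⟩ := gen hE hD2 e
  -- the padding
  obtain ⟨m, hm⟩ := PB.exp (ww_pb (PB.id.add (hNPB.mul hNPB)))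
  set d := m * k1 + m * k2 + 1 with hd
  have hpad : ∀ {t k : ℕ}, 2 ≤ t → m * k + 1 ≤ d → (ww (t + Nb t * Nb t)) ^ k ≤ t ^ d := by
    intro t k ht hk
    refine (Nat.pow_le_pow_left (hm t ht) k).trans ?_
    rw [← pow_mul]
    exact Nat.pow_le_pow_right (by omega) (by omega)
  -- certificates against the advice
  have hD3 : Poly (fun r : (ℕ × ℕ) × List Bool => c3 f V p g1 g2 d r.1
      ((unbits Q3 r.2).getD ([], ([], [])))) :=
    c3_poly p d hfp hVp hg1 hg2 (NPC.Poly.fst NPC.Poly.id) (NPC.Poly.optGetD (poly_unbits.comp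
      (NPC.Poly.snd NPC.Poly.id)) (NPC.Poly.const _))
  obtain ⟨e3, he3⟩ := PB.exp (F := fun t => 4 * t ^ d + 4 * t + 4 * p.eval t + 5)
    (((((PB.const 4).mul (PB.id.pow d)).add ((PB.const 4).mul PB.id)).add
      ((PB.const 4).mul ⟨p, fun n => le_rfl⟩)).add (PB.const 5))
  obtain ⟨g3, k3, hg3, hg3s⟩ := gen hE hD3 e3
  obtain ⟨m3, hm3⟩ := PB.exp (ww_pb PB.id)
  set d3 := m3 * k3 with hd3
  have hpad3 : ∀ n a : ℕ, 2 ^ (k3 * (sz ((n, a) : ℕ × ℕ) + 1)) ≤ (n + a + 2) ^ d3 := by
    intro n a
    rw [mul_comm k3, pow_mul, hd3, pow_mul]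
    exact Nat.pow_le_pow_left ((q0_bound (by omega) (by omega)).trans (hm3 (n + a + 2)
      (by omega))) k3
  refine ⟨fun x => [fin f g1 g2 g3 b d d3 x], polyTime_of_poly (fin_poly b d d3 hfp hg1 hg2 hg3),
    fun x => ?_⟩
  rw [List.cons.injEq, and_iff_left rfl]
  unfold fin
  rw [Bool.not_eq_true']
  constructor
  · intro hx
    rw [List.any_eq_false]
    intro a ha
    rw [List.mem_range] at ha
    have hmin : min a (x.length ^ b + b) = a := min_eq_left (by omega)
    unfold rf pd
    rw [hmin]
    intro hcon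
    rw [Bool.and_eq_true, Bool.not_eq_true', Bool.not_eq_true', decide_eq_false_iff_not] at hcon
    obtain ⟨h1, h2⟩ := hcon
    have h3 := hg3s (x.length, a) (List.replicate ((x.length + a + 2) ^ d3) true)
      (by rw [List.length_replicate]; exact hpad3 _ _)
    rw [h1] at h3
    apply absurd h3.2
    simp only [Bool.false_eq_true, imp_false, not_not]
    obtain ⟨w, hw1, hw2⟩ := (hVA x).1 hx
    refine ⟨bits (List.replicate ((x.length + a + 2) ^ d) true, (x, w)), ?_, ?_⟩
    · rw [bits_length, sz_pair, sz_pair]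
      have k1 := sz_listBool_le (List.replicate ((x.length + a + 2) ^ d) true)
      have k2 := sz_listBool_le x
      have k3 := sz_listBool_le w
      rw [List.length_replicate] at k1
      have k4 := he3 (x.length + a + 2) (by omega)
      have k5 := eval_mono p (show x.length ≤ x.length + a + 2 by omega)
      have k6 : (x.length + a + 2) ^ e3 ≤ 2 ^ (e3 * (sz ((x.length, a) : ℕ × ℕ) + 1)) := by
        rw [mul_comm e3, pow_mul]
        exact Nat.pow_le_pow_left (add_two_le _ _) e3
      omega
    · rw [unbits_bits]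
      unfold c3
      simp only [Option.getD_some, Bool.and_eq_true, decide_eq_true_eq, List.length_replicate,
        Bool.not_eq_true', decide_eq_false_iff_not]
      exact ⟨trivial, trivial, hw1, hw2, h2⟩
  · intro h
    by_contra hx
    rw [List.any_eq_false] at h
    obtain ⟨a, ha, N, H, hH⟩ := hG x.length
    have h1 := h a (List.mem_range.2 (by omega))
    have hmin : min a (x.length ^ b + b) = a := min_eq_left (by omega)
    choose! s hs using hH
    have hs1 : ∀ y ∈ mem A x.length, fa f a y = vals (s y) := fun y hy => (hs y hy.1).1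
    have hGH : Subgroup.closure (s '' mem A x.length) ≤ H := by
      rw [Subgroup.closure_le]
      rintro _ ⟨y, hy, rfl⟩
      exact (hs y hy.1).2.1 hy.2
    have hN0 : (fa f a (List.replicate x.length false)).length = N := by
      have := (hs (List.replicate x.length false) (by simp)).1
      unfold fa
      rw [this, vals_length]
    have hNb' := hNle hN0
    set t := x.length + a + 2 with ht
    set y : List Bool := List.replicate (t ^ d) true with hy
    have hty : t ≤ y.length := by
      rw [hy, List.length_replicate]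
      calc t = t ^ 1 := (pow_one t).symm
        _ ≤ t ^ d := Nat.pow_le_pow_right (by omega) (by omega)
    have hpts : pts f x.length a y = N := by
      unfold pts
      rw [min_eq_left (by omega), hN0]
    have hNN : N * N ≤ Nb t * Nb t := Nat.mul_le_mul hNb' hNb'
    have hN1 : N ≤ N * N := Nat.le_mul_self N
    have hze : ∀ s : ℕ, sz ((x.length, a) : ℕ × ℕ) ≤ s →
        zz N x.length (p.eval x.length) ≤ 2 ^ (e * (s + 1)) := by
      intro s hs
      refine (hzz hN0).trans ?_
      rw [mul_comm e, pow_mul]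
      refine Nat.pow_le_pow_left ((add_two_le _ _).trans (Nat.pow_le_pow_right (by norm_num)
        (by omega))) e
    obtain ⟨hT1, hT2, hT3⟩ := Ft_spec (f := f) (V := V) (p := p) (g1 := g1) (g2 := g2) hVA hs1
      hpts (fun k hk => ⟨_, hze (sz ((x.length, (a, k)) : Q1)) (by
          rw [sz_pair, sz_pair, sz_pair]; omega), hg1s (x.length, (a, k)) y (by
            rw [hy, List.length_replicate, mul_comm k1, pow_mul]
            refine le_trans (Nat.pow_le_pow_left (q1_bound (M := t + Nb t * Nb t) (by omega)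
              (by omega) (by omega)) k1) (hpad (by omega) ?_)
            rw [hd]
            exact Nat.add_le_add_right (Nat.le_add_right _ _) 1)⟩)
      (fun K hK i hi v hv j hj u hu => ⟨_, hze (sz (((x.length, (a, K)), ((i, v), (j, u))) : Q2)) (by
          rw [sz_pair, sz_pair (x.length, (a, K)), sz_pair x.length, sz_pair a]; omega),
            hg2s ((x.length, (a, K)), ((i, v), (j, u))) y (by
              rw [hy, List.length_replicate, mul_comm k2, pow_mul]
              refine le_trans (Nat.pow_le_pow_left (q2_bound (M := t + Nb t * Nb t) (by omega)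
                (by omega) (by omega) (by omega) (by omega) (by omega) (by omega)) k2)
                  (hpad (by omega) ?_)
              rw [hd]
              exact Nat.add_le_add_right (Nat.le_add_left _ _) 1)⟩)
    have hT2' : ∀ v ∈ Ft f g1 g2 y x.length a, InH H v := fun v hv => by
      obtain ⟨σ, h3, h4⟩ := hT2 v hv
      exact ⟨σ, hGH h3, h4⟩
    apply h1
    unfold rf pd
    rw [hmin, Bool.and_eq_true, Bool.not_eq_true', Bool.not_eq_true', decide_eq_false_iff_not]
    constructor
    · rw [Bool.eq_false_iff]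
      intro h2
      have h3 := (hg3s (x.length, a) (List.replicate (t ^ d3) true)
        (by rw [List.length_replicate]; exact hpad3 _ _)).1 h2
      obtain ⟨w, _, h4⟩ := h3
      generalize (unbits Q3 w).getD ([], ([], [])) = q at h4
      obtain ⟨pad, y', w'⟩ := q
      unfold c3 at h4
      simp only [Bool.and_eq_true, decide_eq_true_eq, Bool.not_eq_true',
        decide_eq_false_iff_not] at h4
      obtain ⟨h5, h6, h7, h8, h9⟩ := h4
      have h10 : y' ∈ mem A x.length := ⟨h6, (hVA _).2 ⟨w', h7, h8⟩⟩
      apply h9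
      rw [h5, hs1 y' h10]
      exact hT3 _ (Subgroup.subset_closure ⟨y', h10, rfl⟩)
    · have h3 := hs x rfl
      show ¬ key (sft (Ft f g1 g2 y x.length a) (fa f a x)) = none
      rw [show fa f a x = vals (s x) from h3.1]
      intro h4
      obtain ⟨σ', h5, h6, _⟩ := sft_spec hT1 (s x)
      rw [h5, key_none] at h4
      apply hx
      rw [h3.2, h6 H hT2', h4]
      exact H.one_mem

end Pool.Agent.TH682.EN
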