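import Pool.Agent.TH682.HS.Down
import Pool.Agent.TH682.PM.Comp
import Pool.Agent.TH682.EL.Diag

/-!
# Decisions in deterministic exponential time, with padding
-/

set_option autoImplicit false

namespace Pool.Agent.TH682.EN

open Pool.Agent.NPC Pool.Agent.H579R2.Spt Pool.Agent.TH682.GD Pool.Agent.TH682.HS
open Pool.Agent.TH684.EX (poly_of_polyTime)
open Pool.Agent.TH682.EL (InE)
open Pool.Agent.TH682.VC (num str bits_num str_num num_poly str_poly num_lt)

/-- A decision with padding. -/
def dE (V : List Bool → List Bool) (c : ℕ) (z y : List Bool) : Bool :=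
  decide (V (pairBits z (List.replicate (min (2 ^ (c * (z.length + 1))) y.length) true)) = [true])

theorem replicate_poly {α : Type} [TEnc α] {m : α → ℕ} (hm : UPoly m) (b : Bool) :
    Poly (fun a => List.replicate (m a) b) :=
  (NPC.Poly.map (l := fun x => List.replicate (m x) ()) (F := fun _ _ => b) hm
    (NPC.Poly.const b)).congr fun x => by simp

theorem dE_poly {V : List Bool → List Bool} (c : ℕ) (hV : Poly V) :
    Poly (fun r : List Bool × List Bool => dE V c r.1 r.2) := by
  have e1 : Poly (fun r : List Bool × List Bool => r.1) := NPC.Poly.fst NPC.Poly.id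
  have e2 : Poly (fun r : List Bool × List Bool => r.2) := NPC.Poly.snd NPC.Poly.id
  have e3 : UPoly (fun r : List Bool × List Bool => c * (r.1.length + 1)) :=
    (UPoly.const c).mul ((UPoly.length e1).add (UPoly.const 1))
  have e4 := PM.two_pow_min_poly e3 e2
  exact NPC.Poly.decide_eq (hV.comp (Pool.Agent.H622R2.poly_pairBits e1 (replicate_poly e4 true)))
    (NPC.Poly.const _)

/-- **If `E = NE`, predicates with certificates of exponential length are decided in polynomial
time, given a sufficiently long padding.** -/
theorem gen (hE : ∀ L : Set (List Bool), InNE L → InE L) {Q : Type} [TEnc Q] [TDec Q]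
    {D : Q × List Bool → Bool} (hD : Poly D) (e : ℕ) :
    ∃ (g : Q × List Bool → Bool) (c : ℕ), Poly g ∧ ∀ (q : Q) (y : List Bool),
      2 ^ (c * (sz q + 1)) ≤ y.length →
        (g (q, y) = true ↔ ∃ w : List Bool, w.length ≤ 2 ^ (e * (sz q + 1)) ∧ D (q, w) = true) := by
  classical
  set L : Set (List Bool) := {z | ∃ q : Q, bits q = z ∧
    ∃ w : List Bool, w.length ≤ 2 ^ (e * (sz q + 1)) ∧ D (q, w) = true} with hL
  have hNE : InNE L := by
    set R : List Bool × List Bool → Bool := fun r =>
      (Option.map (fun q => decide (bits q = r.1) && D (q, r.2)) (unbits Q r.1)).getD false with hR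
    have hRp : Poly R := by
      have e1 : Poly (fun r : List Bool × List Bool => r.1) := NPC.Poly.fst NPC.Poly.id
      have e2 : Poly (fun r : List Bool × List Bool => r.2) := NPC.Poly.snd NPC.Poly.id
      refine NPC.Poly.optGetD (NPC.Poly.optMap (o := fun r : List Bool × List Bool =>
        unbits Q r.1) (f := fun r q => decide (bits q = r.1) && D (q, r.2))
        (poly_unbits.comp e1) ?_) (NPC.Poly.const _)
      have f1 : Poly (fun s : (List Bool × List Bool) × Q => s.1) := NPC.Poly.fst NPC.Poly.id
      have f2 : Poly (fun s : (List Bool × List Bool) × Q => s.2) := NPC.Poly.snd NPC.Poly.id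
      exact NPC.Poly.and (NPC.Poly.decide_eq (bits_poly.comp f2) (NPC.Poly.fst f1))
        (hD.comp (NPC.Poly.pair f2 (NPC.Poly.snd f1)))
    refine ⟨fun z => [R (unpair z)], e, polyTime_of_poly (hRp.comp poly_unpair), fun z => ?_⟩
    simp only [unpair_pairBits, List.cons.injEq, and_true]
    constructor
    · rintro ⟨q, rfl, w, h1, h2⟩
      refine ⟨w, by rw [bits_length]; exact h1, ?_⟩
      simp only [hR, unbits_bits, Option.map_some, Option.getD_some, decide_true, Bool.true_and]
      exact h2
    · rintro ⟨w, h1, h2⟩
      simp only [hR] at h2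
      cases h3 : unbits Q z with
      | none =>
        rw [h3] at h2
        simp at h2
      | some q =>
        rw [h3] at h2
        simp only [Option.map_some, Option.getD_some, Bool.and_eq_true, decide_eq_true_eq] at h2
        refine ⟨q, h2.1, w, ?_, h2.2⟩
        rw [← bits_length, h2.1]
        exact h1
  obtain ⟨V, c, hV, hVL⟩ := hE L hNE
  have hVp : Poly V := PIso.poly_iff.2 hV
  refine ⟨fun r => dE V c (bits r.1) r.2, c, (dE_poly c hVp).comp (NPC.Poly.pair
    (bits_poly.comp (NPC.Poly.fst NPC.Poly.id)) (NPC.Poly.snd NPC.Poly.id)), fun q y hy => ?_⟩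
  have h1 := hVL (bits q)
  unfold dE
  rw [decide_eq_true_eq, bits_length, min_eq_left hy]
  rw [bits_length] at h1
  rw [← h1]
  constructor
  · rintro ⟨q', hq, h⟩
    have h2 : q' = q := bits_injective hq
    rw [h2] at h
    exact h
  · intro h
    exact ⟨q, rfl, h⟩

/-- The converse direction, with tally sets. -/
theorem inE_of_una {L : Set (List Bool)} (h : InP (una L)) : InE L := by
  obtain ⟨V, hV, hVL⟩ := h
  have hVp : Poly V := PIso.poly_iff.2 hV
  refine ⟨fun z => [decide (V (List.replicate (min (num (unpair z).1) (unpair z).2.length) true) =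
    [true])], 1, polyTime_of_poly ?_, fun x => ?_⟩
  · have e1 : Poly (fun z => (unpair z).1) := NPC.Poly.fst poly_unpair
    have e2 : Poly (fun z => (unpair z).2) := NPC.Poly.snd poly_unpair
    have e3 : UPoly (fun z => min (num (unpair z).1) (unpair z).2.length) := by
      refine UPoly.of_le ?_ (UPoly.length e2) fun a => min_le_right _ _
      exact NPC.Poly.min (num_poly.comp e1) (UPoly.length e2).toPoly
    exact NPC.Poly.decide_eq (hVp.comp (replicate_poly e3 true)) (NPC.Poly.const _)
  · simp only [unpair_pairBits, List.cons.injEq, and_true, decide_eq_true_eq,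
      List.length_replicate, one_mul]
    rw [min_eq_left (num_lt x).le, ← hVL, mem_una]

end Pool.Agent.TH682.EN
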