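import Pool.Agent.TH682.KD.Table

/-!
# Programs that build complete tables, and canonical elements
-/

set_option autoImplicit false

namespace Pool.Agent.TH682.EN

open Pool.Agent.NPC Pool.Agent.TH682.GD
open Pool.Agent.TH682.KD (isp isp_vals exists_of_isp)

/-- Programs: an instruction is a permutation (a product of the entries of the table that has been
built so far) and a string. -/
abbrev Prg := List (List ℕ × List Bool)

/-- The products that are inserted. -/
def prs (F : List Bool → List ℕ) (ops : Prg) : List (List ℕ) := ops.map (fun o => cmp o.1 (F o.2))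

/-- The instruction with number `i`. -/
def ith (ops : Prg) (i : ℕ) : List ℕ × List Bool := ops.getD i ([], [])

/-- Valid programs. -/
def Vld (F : List Bool → List ℕ) (ops : Prg) : Prop :=
  (∀ i < ops.length, isp (ith ops i).1 = true ∧ (ith ops i).1.length = (F (ith ops i).2).length ∧
    key (sft (tbl [] ((prs F ops).take i)) (ith ops i).1) = none) ∧
      (tbl [] (prs F ops)).length = ops.length

variable {N : ℕ} {F : List Bool → List ℕ} {S : Set (List Bool)}
  {s : List Bool → Equiv.Perm (Fin N)}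

theorem ith_mem {ops : Prg} {i : ℕ} (hi : i < ops.length) : ith ops i ∈ ops := by
  unfold ith
  rw [List.getD_eq_getElem _ _ hi]
  exact List.getElem_mem hi

/-- The products of a valid program are in the group. -/
theorem prs_take (hs : ∀ x ∈ S, F x = vals (s x)) {ops : Prg} (hv : Vld F ops)
    (hm : ∀ o ∈ ops, o.2 ∈ S) : ∀ i ≤ ops.length, ∃ ps : List (Equiv.Perm (Fin N)),
      (prs F ops).take i = ps.map vals ∧ ∀ σ ∈ ps, σ ∈ Subgroup.closure (s '' S) := by
  intro i
  induction i with
  | zero => intro _; exact ⟨[], by simp, by simp⟩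
  | succ i ih =>
    intro hi
    obtain ⟨ps, h1, h2⟩ := ih (by omega)
    obtain ⟨h3, h4, h5⟩ := hv.1 i (by omega)
    have hmi : (ith ops i).2 ∈ S := hm _ (ith_mem (by omega))
    rw [hs _ hmi, vals_length] at h4
    obtain ⟨π, hπ⟩ := exists_of_isp h3
    obtain ⟨π', hπ'⟩ : ∃ π' : Equiv.Perm (Fin N), vals π' = (ith ops i).1 := by
      revert π
      rw [h4]
      exact fun π hπ => ⟨π, hπ⟩
    have h6 : π' ∈ Subgroup.closure (s '' S) := by
      rw [h1, ← hπ'] at h5
      obtain ⟨h7, _, h8, _⟩ := tbl_spec ps [] (tab_nil N)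
      obtain ⟨σ', h9, h10, _⟩ := sft_spec h7 π'
      rw [h9, key_none] at h5
      rw [h10 _ (h8 _ (by simp) h2), h5]
      exact Subgroup.one_mem _
    have h7 : s (ith ops i).2 ∈ Subgroup.closure (s '' S) :=
      Subgroup.subset_closure ⟨_, hmi, rfl⟩
    refine ⟨ps ++ [π' * s (ith ops i).2], ?_, ?_⟩
    · have h8 : i < (prs F ops).length := by
        unfold prs
        rw [List.length_map]
        omega
      have h9 : (prs F ops)[i] = GD.cmp (ith ops i).1 (F (ith ops i).2) := by
        have h10 : (prs F ops)[i]? = (ops[i]?).map (fun o => GD.cmp o.1 (F o.2)) := by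
          unfold prs
          rw [List.getElem?_map]
        have h11 : i < ops.length := by omega
        have h12 : ith ops i = ops[i] := by
          unfold ith
          rw [List.getD_eq_getElem _ _ h11]
        rw [List.getElem?_eq_getElem h8, List.getElem?_eq_getElem h11, Option.map_some] at h10
        rw [Option.some.inj h10, h12]
      rw [List.take_succ_eq_append_getElem h8, h1, List.map_append, List.map_cons, List.map_nil,
        ← cmp_vals, hπ', ← hs _ hmi, h9]
    · intro σ hσ
      rcases List.mem_append.1 hσ with hσ | hσ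
      · exact h2 σ hσ
      · rw [List.mem_singleton] at hσ
        rw [hσ]
        exact Subgroup.mul_mem _ h6 h7

/-- The table of a valid program. -/
theorem vld_tab (hs : ∀ x ∈ S, F x = vals (s x)) {ops : Prg} (hv : Vld F ops)
    (hm : ∀ o ∈ ops, o.2 ∈ S) : Tab N (tbl [] (prs F ops)) ∧
      ∀ v ∈ tbl [] (prs F ops), InH (Subgroup.closure (s '' S)) v := by
  obtain ⟨ps, h1, h2⟩ := prs_take hs hv hm ops.length le_rfl
  rw [List.take_of_length_le (by unfold prs; rw [List.length_map])] at h1
  rw [h1]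
  obtain ⟨h7, _, h8, _⟩ := tbl_spec ps [] (tab_nil N)
  exact ⟨h7, h8 _ (by simp) h2⟩

theorem vld_length_le (hs : ∀ x ∈ S, F x = vals (s x)) {ops : Prg} (hv : Vld F ops)
    (hm : ∀ o ∈ ops, o.2 ∈ S) : ops.length ≤ N ^ 2 := by
  rw [← hv.2]
  exact tab_length_le (vld_tab hs hv hm).1

/-- Extension of a valid program. -/
theorem vld_snoc (hs : ∀ x ∈ S, F x = vals (s x)) {ops : Prg} (hv : Vld F ops)
    {π : Equiv.Perm (Fin N)}
    (hπ : key (sft (tbl [] (prs F ops)) (vals π)) = none) {x : List Bool} (hx : x ∈ S)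
    (hk : key (sft (tbl [] (prs F ops)) (vals (π * s x))) ≠ none) :
    Vld F (ops ++ [(vals π, x)]) := by
  have h0 : prs F (ops ++ [(vals π, x)]) = prs F ops ++ [vals (π * s x)] := by
    unfold prs
    rw [List.map_append, List.map_cons, List.map_nil, hs x hx, cmp_vals]
  have hl : (prs F ops).length = ops.length := by
    unfold prs
    rw [List.length_map]
  refine ⟨fun i hi => ?_, ?_⟩
  · rw [h0]
    rw [List.length_append, List.length_singleton] at hi
    rcases Nat.lt_or_ge i ops.length with h1 | h1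
    · have h2 : ith (ops ++ [(vals π, x)]) i = ith ops i := by
        unfold ith
        rw [List.getD_append _ _ _ _ h1]
      rw [h2, List.take_append_of_le_length (by omega)]
      exact hv.1 i h1
    · have h2 : i = ops.length := by omega
      have h3 : ith (ops ++ [(vals π, x)]) i = (vals π, x) := by
        unfold ith
        rw [h2, List.getD_append_right _ _ _ _ le_rfl]
        simp
      rw [h3, h2, ← hl, List.take_left]
      refine ⟨isp_vals π, ?_, hπ⟩
      rw [hs x hx, vals_length, vals_length]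
  · rw [h0, tbl_append]
    show (ins (tbl [] (prs F ops)) (vals (π * s x))).length = _
    unfold ins
    rw [if_neg hk, List.length_cons, hv.2, List.length_append, List.length_singleton]

/-- **Longest programs build complete tables.** -/
theorem complete_of_max (hs : ∀ x ∈ S, F x = vals (s x)) {ops : Prg} (hv : Vld F ops)
    (hm : ∀ o ∈ ops, o.2 ∈ S)
    (hmax : ∀ ops' : Prg, Vld F ops' → (∀ o ∈ ops', o.2 ∈ S) → ops'.length ≤ ops.length) :
    ∀ σ ∈ Subgroup.closure (s '' S), key (sft (tbl [] (prs F ops)) (vals σ)) = none := by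
  intro σ hσ
  rw [← Subgroup.mem_toSubmonoid, Subgroup.closure_toSubmonoid_of_finite] at hσ
  induction hσ using Submonoid.closure_induction_right with
  | one =>
    obtain ⟨h1, h2⟩ := vld_tab hs hv hm
    obtain ⟨σ', h3, h4, h5⟩ := sft_spec h1 1
    rw [h3, key_none]
    have : key (vals (1 : Equiv.Perm (Fin N))) = none :=
      (key_none (1 : Equiv.Perm (Fin N))).2 rfl
    have h6 : stp (tbl [] (prs F ops)) (vals (1 : Equiv.Perm (Fin N))) =
        vals (1 : Equiv.Perm (Fin N)) := by
      unfold stp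
      have h7 : (tbl [] (prs F ops)).filter (fun τ => decide (key τ =
          key (vals (1 : Equiv.Perm (Fin N))))) = [] := by
        rw [List.filter_eq_nil_iff]
        intro τ hτ
        rw [decide_eq_true_eq, this]
        obtain ⟨ρ, hρ, hρ1⟩ := h1.1 τ hτ
        rw [← hρ]
        exact fun h => hρ1 ((key_none ρ).1 h)
      rw [h7]
    have h7 : sft (tbl [] (prs F ops)) (vals (1 : Equiv.Perm (Fin N))) =
        vals (1 : Equiv.Perm (Fin N)) := by
      unfold sft
      exact Function.iterate_fixed h6 _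
    rw [h7] at h3
    exact (vals_injective h3).symm
  | mul_right π hπ y hy ih =>
    obtain ⟨x, hx, rfl⟩ := hy
    by_contra hcon
    have h1 := hmax _ (vld_snoc hs hv ih hx hcon) (by
      intro o ho
      rcases List.mem_append.1 ho with ho | ho
      · exact hm o ho
      · rw [List.mem_singleton] at ho
        rw [ho]
        exact hx)
    simp at h1

/-- In a complete table every key of the group occurs. -/
theorem key_mem_of_complete {T : List (List ℕ)} {σ : Equiv.Perm (Fin N)} (hσ1 : σ ≠ 1)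
    (h : key (sft T (vals σ)) = none) : ∃ t ∈ T, key t = key (vals σ) := by
  by_contra hcon
  push Not at hcon
  have h6 : stp T (vals σ) = vals σ := by
    unfold stp
    have h7 : T.filter (fun τ => decide (key τ = key (vals σ))) = [] := by
      rw [List.filter_eq_nil_iff]
      intro τ hτ
      rw [decide_eq_true_eq]
      exact hcon τ hτ
    rw [h7]
  have h7 : sft T (vals σ) = vals σ := by
    unfold sft
    exact Function.iterate_fixed h6 _
  rw [h7] at h
  exact hσ1 ((key_none σ).1 h)

theorem key_eq_some {σ : Equiv.Perm (Fin N)} {i : ℕ} (hi : i < N) (h : Fix σ i)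
    (h1 : σ ⟨i, hi⟩ ≠ ⟨i, hi⟩) : key (vals σ) = some (i, (σ ⟨i, hi⟩ : ℕ)) := by
  unfold key
  rw [vals_length, head?_filter_range _ i hi]
  · rw [Option.map_some]
    have := vals_getD σ ⟨i, hi⟩
    simp only at this
    rw [this]
  · have := vals_getD σ ⟨i, hi⟩
    simp only at this
    rw [this]
    simp only [Bool.not_eq_eq_eq_not, Bool.not_true, decide_eq_false_iff_not]
    exact fun h => h1 (Fin.ext h)
  · intro j hj
    have h2 := vals_getD σ ⟨j, by omega⟩
    simp only at h2
    rw [h2, h ⟨j, by omega⟩ hj]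
    simp

/-- Canonical elements: lexicographically least for their key. -/
def Can (G : Subgroup (Equiv.Perm (Fin N))) (i v : ℕ) (τ : Equiv.Perm (Fin N)) : Prop :=
  τ ∈ G ∧ key (vals τ) = some (i, v) ∧ ∀ ρ ∈ G, ∀ j : Fin N, i < (j : ℕ) → Fix ρ (j : ℕ) →
    (τ j : ℕ) ≤ (τ (ρ j) : ℕ)

theorem can_unique {G : Subgroup (Equiv.Perm (Fin N))} {i v : ℕ} {τ τ' : Equiv.Perm (Fin N)}
    (h : Can G i v τ) (h' : Can G i v τ') : τ = τ' := by
  obtain ⟨h1, h2, h3⟩ := h
  obtain ⟨h4, h5, h6⟩ := h'
  obtain ⟨hi, k1, k2, _, _⟩ := key_some h2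
  obtain ⟨_, k3, k4, _, _⟩ := key_some h5
  have h7 : ∀ j : ℕ, ∀ hj : j < N, τ ⟨j, hj⟩ = τ' ⟨j, hj⟩ := by
    intro j
    induction j using Nat.strong_induction_on with
    | _ j ih =>
      intro hj
      rcases lt_trichotomy j i with h8 | h8 | h8
      · rw [k1 ⟨j, hj⟩ h8, k3 ⟨j, hj⟩ h8]
      · subst h8
        exact Fin.ext (k2.trans k4.symm)
      · have h9 : Fix (τ⁻¹ * τ') j := by
          intro l hl
          rw [Equiv.Perm.mul_apply, Equiv.Perm.inv_eq_iff_eq]
          exact (ih l hl l.2).symm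
        have h10 : Fix (τ'⁻¹ * τ) j := by
          intro l hl
          rw [Equiv.Perm.mul_apply, Equiv.Perm.inv_eq_iff_eq]
          exact ih l hl l.2
        have h11 := h3 (τ⁻¹ * τ') (G.mul_mem (G.inv_mem h1) h4) ⟨j, hj⟩ h8 h9
        have h12 := h6 (τ'⁻¹ * τ) (G.mul_mem (G.inv_mem h4) h1) ⟨j, hj⟩ h8 h10
        have e1 : τ ((τ⁻¹ * τ') ⟨j, hj⟩) = τ' ⟨j, hj⟩ := by simp
        have e2 : τ' ((τ'⁻¹ * τ) ⟨j, hj⟩) = τ ⟨j, hj⟩ := by simp
        rw [e1] at h11
        rw [e2] at h12
        exact Fin.ext (le_antisymm h11 h12)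
  ext j
  rw [h7 j j.2]

theorem can_exists {G : Subgroup (Equiv.Perm (Fin N))} {i v : ℕ} {σ : Equiv.Perm (Fin N)}
    (hσ : σ ∈ G) (hk : key (vals σ) = some (i, v)) : ∃ τ, Can G i v τ := by
  classical
  -- the lexicographically least element
  obtain ⟨hi, k1, k2, k5, _⟩ := key_some hk
  let P : Set (Equiv.Perm (Fin N)) := {τ | τ ∈ G ∧ key (vals τ) = some (i, v)}
  have hPf : P.Finite := Set.toFinite P
  obtain ⟨τ, hτ, hmin⟩ := hPf.exists_minimalFor (fun τ => toLex (fun j : Fin N => τ j)) P
    ⟨σ, hσ, hk⟩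
  refine ⟨τ, hτ.1, hτ.2, fun ρ hρ j hj hfix => ?_⟩
  by_contra hcon
  push Not at hcon
  obtain ⟨_, k3, k4, _, _⟩ := key_some hτ.2
  have h1 : τ * ρ ∈ P := by
    refine ⟨G.mul_mem hτ.1 hρ, ?_⟩
    have h2 : Fix (τ * ρ) i := fun l hl => by
      rw [Equiv.Perm.mul_apply, hfix l (by omega), k3 l hl]
    have h3 : ((τ * ρ) ⟨i, hi⟩ : ℕ) = v := by
      rw [Equiv.Perm.mul_apply, hfix ⟨i, hi⟩ hj, k4]
    rw [key_eq_some hi h2, h3]
    intro h4
    have := congrArg Fin.val h4
    rw [h3] at this
    exact k5 this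
  have h2 : toLex (fun l : Fin N => (τ * ρ) l) < toLex (fun l : Fin N => τ l) := by
    refine ⟨j, fun l hl => ?_, ?_⟩
    · show (τ * ρ) l = τ l
      rw [Equiv.Perm.mul_apply, hfix l hl]
    · show (τ * ρ) j < τ j
      rw [Equiv.Perm.mul_apply]
      exact hcon
  have h3 := hmin h1 h2.le
  exact absurd (lt_of_lt_of_le h2 h3) (lt_irrefl _)

/-- The check of minimality with a table. -/
def mchk (T : List (List ℕ)) (i : ℕ) (τ : List ℕ) : Bool :=
  T.all (fun ρ => decide (((key ρ).getD (0, 0)).1 ≤ i) ||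
    decide (τ.getD ((key ρ).getD (0, 0)).1 0 ≤ τ.getD ((key ρ).getD (0, 0)).2 0))

theorem can_iff {G : Subgroup (Equiv.Perm (Fin N))} {T : List (List ℕ)} (hT : Tab N T)
    (hTG : ∀ v ∈ T, InH G v) (hc : ∀ σ ∈ G, key (sft T (vals σ)) = none) {i v : ℕ}
    {τ : Equiv.Perm (Fin N)} : Can G i v τ ↔ key (sft T (vals τ)) = none ∧
      key (vals τ) = some (i, v) ∧ mchk T i (vals τ) = true := by
  constructor
  · rintro ⟨h1, h2, h3⟩
    refine ⟨hc τ h1, h2, ?_⟩
    unfold mchk
    rw [List.all_eq_true]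
    intro t ht
    obtain ⟨ρ, hρ, hρ1⟩ := hT.1 t ht
    subst hρ
    have h4 : key (vals ρ) ≠ none := fun h => hρ1 ((key_none ρ).1 h)
    obtain ⟨⟨j, u⟩, hju⟩ := Option.ne_none_iff_exists'.1 h4
    obtain ⟨hj, h5, h6, _, h7⟩ := key_some hju
    rw [hju, Option.getD_some, Bool.or_eq_true, decide_eq_true_eq, decide_eq_true_eq]
    rcases Nat.lt_or_ge i j with h8 | h8
    · right
      have h9 := h3 ρ (inH_vals.1 (hTG _ ht)) ⟨j, hj⟩ h8 h5
      have h10 := vals_getD τ ⟨j, hj⟩
      have h11 := vals_getD τ (ρ ⟨j, hj⟩)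
      rw [h6] at h11
      simp only at h10
      rw [h10, h11]
      exact h9
    · left
      exact h8
  · rintro ⟨h1, h2, h3⟩
    have hτ : τ ∈ G := by
      obtain ⟨σ', h4, h5, _⟩ := sft_spec hT τ
      rw [h4, key_none] at h1
      rw [h5 G hTG, h1]
      exact G.one_mem
    refine ⟨hτ, h2, fun ρ hρ j hj hfix => ?_⟩
    by_cases h4 : ρ j = j
    · rw [h4]
    · have h5 : key (vals ρ) = some ((j : ℕ), (ρ j : ℕ)) := key_eq_some j.2 hfix h4
      obtain ⟨t, ht, hk⟩ := key_mem_of_complete (T := T) (σ := ρ) (fun h => h4 (by rw [h]; rfl))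
        (hc ρ hρ)
      rw [h5] at hk
      unfold mchk at h3
      rw [List.all_eq_true] at h3
      have h6 := h3 t ht
      rw [hk, Option.getD_some, Bool.or_eq_true, decide_eq_true_eq, decide_eq_true_eq] at h6
      rcases h6 with h6 | h6
      · simp only at h6
        omega
      · simp only at h6
        rw [vals_getD, vals_getD] at h6
        exact h6

end Pool.Agent.TH682.EN
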